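import Mathlib
import Pool.Agent.Run7.h752.SC.BridgeY

/-!
# Families of closed two-forms with nonnegative top power: compression to symplectic forms

`X` is a closed manifold of dimension `2 (m + 1)` oriented by a volume form. Let `P` be a compact
Hausdorff space, `Q` a closed subset, `σ p`, `p ∈ P`, a continuous family (in the `C⁰` topology) of
closed two-forms with `(σ p) ^ (m + 1)` nonnegative, symplectic for `p ∈ Q`, and `ζ p` a continuous
family of closed two-forms, for instance `ζ p = 0`. The following are equivalent.

* For every `p` there are a one-form `α` and `c > 0` such that the forms `σ p + t (ζ p + dα)`,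
  `0 < t ≤ c`, are positive symplectic forms with top power at least `c t vol`.
* For every `p` the integral of `ζ p` over each extremal closed current of `σ p` is positive.
* For every `p` and every test set `C` of `σ p` there is a one-form `α` such that
  `(ζ p + dα) ∧ (σ p) ^ m` is nonnegative over `C` and positive at one point of `C`.
* There are finitely many one-forms `α_i` and nonnegative continuous functions `φ_i` on `P`, zero on
  `Q`, such that, for `η p = ∑ φ_i(p) (ζ p + dα_i)`, the form `η p ∧ (σ p) ^ m` is positive over the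
  set where `(σ p) ^ (m + 1)` vanishes, and `σ p + t η p` is a positive symplectic form for
  `0 < t ≤ 1`, for all `p`.

Two such choices `η`, `η'` in the last statement are joined: for some `t₀ > 0` the forms
`σ p + t ((1 - s) η p + s η' p)`, `0 < t ≤ t₀`, `0 ≤ s ≤ 1`, are positive symplectic forms.

So, for `ζ = 0`, the inclusion of the space of the symplectic forms in a class into the space of the
closed forms in this class which have nonnegative top power and no (extremal) closed current is a
weak homotopy equivalence: families over `P` are deformed, relative to `Q`, into symplectic forms.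
-/

set_option autoImplicit false

open Set MeasureTheory
open scoped Manifold ContDiff

namespace Run7.h752.Old.FamilyCompression

open Pool.Agent.Y501.SYP
open Pool.Agent.R772.SYK
open Pool.Agent.R772.SYG
open Pool.Agent.R772.SYF
open Pool.Agent.R772.SYD
open Pool.Agent.R772.SYM
open Run7.h752.SYX

theorem result (m d : ℕ) (hd : d = 2 * (m + 1)) (X : Type) [TopologicalSpace X]
    [ChartedSpace (ES d) X] [IsManifold 𝓘(ℝ, ES d) ∞ X] [CompactSpace X] [T2Space X]
    [MeasurableSpace X] [BorelSpace X]
    (vol : TopForm (ES d) X m) (hvol : IsVolume vol)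
    (P : Type) [TopologicalSpace P] [CompactSpace P] [T2Space P] (Q : Set P) (hQ : IsClosed Q)
    (σ ζ : P → Form (ES d) X 2) (hσ : IsFamily vol σ) (hζ : ClosedFam ζ)
    (hpos : ∀ q ∈ Q, IsPosSymplectic vol (σ q)) :
    List.TFAE [
      ∀ p, Admissible vol (σ p) (ζ p),
      ∀ (p : P) (μ : Measure X), Extremal vol (σ p) μ → 0 < ∫ x, density vol (σ p) (ζ p) x ∂μ,
      ∀ (p : P) (C : Set X), TestSet vol (σ p) C →
        ∃ (α : Form (ES d) X 1) (ρ : Form (ES d) X 2), ExactPair α ρ ∧
          SemiPos vol (σ p) (addF (ζ p) ρ) C,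
      ∃ (n : ℕ) (α : Fin n → Form (ES d) X 1) (ρ : Fin n → Form (ES d) X 2)
        (φ : Fin n → P → ℝ), CompressionTo vol Q σ ζ α ρ φ] ∧
    ∀ (n : ℕ) (α : Fin n → Form (ES d) X 1) (ρ : Fin n → Form (ES d) X 2) (φ : Fin n → P → ℝ)
      (n' : ℕ) (α' : Fin n' → Form (ES d) X 1) (ρ' : Fin n' → Form (ES d) X 2)
      (φ' : Fin n' → P → ℝ), CompressionTo vol Q σ ζ α ρ φ → CompressionTo vol Q σ ζ α' ρ' φ' →
      ∃ t₀ : ℝ, 0 < t₀ ∧ ∀ t : ℝ, 0 < t → t ≤ t₀ → ∀ s : ℝ, 0 ≤ s → s ≤ 1 → ∀ p,
        IsPosSymplectic vol (comb (σ p) t (seg (mixF (fun i => φ i p) (ζ p) ρ)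
          (mixF (fun i => φ' i p) (ζ p) ρ') s)) :=
  ⟨family_tfae hd hvol hQ hσ hζ hpos, fun _ _ _ _ _ _ _ _ h h' =>
    compression_unique hd hvol hσ hζ h h'⟩

end Run7.h752.Old.FamilyCompression
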