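import Mathlib
import Pool.Agent.Run7.h752.SC.BridgeZ

/-!
# Closed two-forms with nonnegative top power: resolution in the mean

`X` is a closed manifold of dimension `2 (m + 1)` oriented by a volume form, and `σ` is a closed
two-form with `σ ^ (m + 1)` nonnegative. `pr : Z → X` is a normal covering with an arbitrary group
`G`, and `mn` is a `G`-invariant finitely additive mean on the bounded functions on a `G`-set `P`.
We consider equivariant families `w p`, `p ∈ P`, of closed two-forms on `Z`, locally uniformly
bounded with all derivatives; no form on `Z` is supposed to be invariant, and the forms `w p` need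
not be positive anywhere.

* There are a closed two-form `τ`, cohomologous to the mean of the forms `w p`, and `c > 0` such
  that the forms `σ + t τ`, `0 < t ≤ c`, are positive symplectic forms with top power at least
  `c t vol`, if and only if for every test set `C` of `σ` there is a one-form `α` on `X` such that
  the mean of the forms `(w p + pr^* dα) ∧ (pr^* σ) ^ m` is nonnegative over `C` and positive over
  some point of `C`; here it suffices to consider the supports of the extremal closed currents.
* There are a closed two-form `τ` and `c > 0` such that the forms `σ + t τ`, `0 < t ≤ c`, are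
  positive symplectic forms with top power at least `c t vol`, if and only if for some such family
  the mean of the forms `w p ∧ (pr^* σ) ^ m` is nonnegative over every test set and positive over
  some point of it.
-/

set_option autoImplicit false

open Set MeasureTheory
open scoped Manifold ContDiff

namespace Run7.h752.Old.MeanResolution

open Pool.Agent.Y501.SYP
open Pool.Agent.R772.SYK
open Pool.Agent.R772.SYF
open Pool.Agent.R772.SYD
open Pool.Agent.R772.SYM
open Pool.Agent.N763.SYM
open Run7.h752.SYX

theorem result (m d : ℕ) (hd : d = 2 * (m + 1)) (Z X : Type) [TopologicalSpace Z]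
    [ChartedSpace (ES d) Z] [IsManifold 𝓘(ℝ, ES d) ∞ Z] [TopologicalSpace X]
    [ChartedSpace (ES d) X] [IsManifold 𝓘(ℝ, ES d) ∞ X] [CompactSpace X] [T2Space X]
    [MeasurableSpace X] [BorelSpace X]
    (vol : TopForm (ES d) X m) (hvol : IsVolume vol)
    (σ : Form (ES d) X 2) (hσ : IsClosed2 σ) (hnn : TopNonneg vol σ)
    (G P : Type) [Group G] [MulAction G Z] [MulAction G P]
    (mn : (P → ℝ) → ℝ) (hm : InvariantMean G mn)
    (pr : Z → X) (hpr : NormalCovering (ES d) G pr) :
    (∀ w : P → Form (ES d) Z 2, ClosedFamily G w → List.TFAE [
      ∃ (τ : Form (ES d) X 2) (c : ℝ), IsClosed2 τ ∧ SymplecticUpTo vol σ τ c ∧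
        InMeanClass mn pr w τ,
      ∀ C : Set X, TestSet vol σ C → ∃ (α : Form (ES d) X 1) (ρ : Form (ES d) X 2),
        ExactPair α ρ ∧ MeanSemiPos mn pr vol σ (fun p => addF (w p) (lift pr ρ)) C,
      ∀ μ : Measure X, Extremal vol σ μ → ∃ (α : Form (ES d) X 1) (ρ : Form (ES d) X 2),
        ExactPair α ρ ∧
          MeanSemiPos mn pr vol σ (fun p => addF (w p) (lift pr ρ)) μ.support]) ∧
    ((∃ (τ : Form (ES d) X 2) (c : ℝ), IsClosed2 τ ∧ SymplecticUpTo vol σ τ c) ↔
      ∃ w : P → Form (ES d) Z 2, ClosedFamily G w ∧
        ∀ C : Set X, TestSet vol σ C → MeanSemiPos mn pr vol σ w C) :=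
  ⟨fun _ hw => mean_tfae hd hvol hσ hnn hm hpr hw, mean_exists hd hvol hσ hnn hm hpr⟩

end Run7.h752.Old.MeanResolution
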